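import Mathlib
import Pool.Agent.Helper65.Inj.Defs

/-!
R1: the class of structures of the R-lemma is closed under the removal of a set of points which
contains every dropped token that it meets.
-/

namespace Pool.Agent.Helper78.Inj

open Classical
open Pool.Agent.Helper65.Inj

section

variable {A B : Type} (S : RS A B) (O : Finset A)

lemma mem_pt_rm (v : A) (b : B) : v ∈ (S.rm O).pt b ↔ v ∈ S.pt b ∧ v ∉ O := by
  unfold RS.pt RS.rm
  simp only [Finset.mem_filter, Finset.mem_sdiff]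
  tauto

lemma pt_rm_sub (b : B) : (S.rm O).pt b ⊆ S.pt b := by
  intro v hv
  exact ((mem_pt_rm S O v b).1 hv).1

/-- a token of the smaller structure is a token with the same points -/
lemma tok_rm (h3 : ∀ b, (S.pt b).card ≤ 3) (b : B) (hb : (S.rm O).Tok b) :
    (S.rm O).pt b = S.pt b ∧ S.Tok b := by
  have hc : ((S.rm O).pt b).card = 3 := hb
  have he : (S.rm O).pt b = S.pt b :=
    Finset.eq_of_subset_of_card_le (pt_rm_sub S O b) (by rw [hc]; exact h3 b)
  refine ⟨he, ?_⟩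
  unfold RS.Tok
  rw [← he]
  exact hc

/-- an old token without removed points is a token of the smaller structure -/
lemma rm_tok (b : B) (hb : S.Tok b) (hO : ∀ u ∈ S.pt b, u ∉ O) :
    (S.rm O).pt b = S.pt b ∧ (S.rm O).Tok b := by
  have he : (S.rm O).pt b = S.pt b := by
    apply Finset.Subset.antisymm (pt_rm_sub S O b)
    intro v hv
    exact (mem_pt_rm S O v b).2 ⟨hv, hO v hv⟩
  refine ⟨he, ?_⟩
  unfold RS.Tok
  rw [he]
  exact hb

variable (hd : ∀ b, S.Tok b → (∃ u ∈ S.pt b, u ∈ S.D) → (∃ u ∈ S.pt b, u ∈ O) →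
  ∀ u ∈ S.pt b, u ∈ O)

include hd

lemma drp_rm (u : A) (b : B) (hu : u ∈ (S.rm O).pt b) (h : S.drp u b) : (S.rm O).drp u b := by
  obtain ⟨hD, hT⟩ := h
  have hu' := (mem_pt_rm S O u b).1 hu
  refine ⟨hD, (rm_tok S O b hT ?_).2⟩
  intro w hw hwO
  exact hu'.2 (hd b hT ⟨u, hu'.1, hD⟩ ⟨w, hw, hwO⟩ u hu'.1)

lemma adj_rm (u v : A) (h : (S.rm O).adj u v) : S.adj u v := by
  obtain ⟨hne, b, hu, hv, hn⟩ := h
  refine ⟨hne, b, pt_rm_sub S O b hu, pt_rm_sub S O b hv, ?_⟩
  intro hh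
  exact hn ⟨drp_rm S O hd u b hu hh.1, drp_rm S O hd v b hv hh.2⟩

lemma nb_sub (v : A) :
    (S.rm O).R.filter (fun w => (S.rm O).adj v w) ⊆ S.R.filter (fun w => S.adj v w) := by
  intro w hw
  rw [Finset.mem_filter] at hw ⊢
  refine ⟨?_, adj_rm S O hd v w hw.2⟩
  have h1 : w ∈ S.R \ O := hw.1
  exact (Finset.mem_sdiff.1 h1).1

lemma deg_rm (v : A) : (S.rm O).deg v ≤ S.deg v :=
  Finset.card_le_card (nb_sub S O hd v)

end

/-- R1 -/
theorem r1 : ST_R1 := by
  intro A B S O hC hd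
  have hRm : ∀ v, v ∈ (S.rm O).R → v ∈ S.R := fun v hv => by
    have h1 : v ∈ S.R \ O := hv
    exact (Finset.mem_sdiff.1 h1).1
  refine ⟨?_, ?_, ?_, ?_, ?_, ?_, ?_, ?_⟩
  · intro v hv
    exact hC.bl3 v (hRm v hv)
  · intro b
    exact (Finset.card_le_card (pt_rm_sub S O b)).trans (hC.pt3 b)
  · intro v b b' h1 h2 hT hT'
    exact hC.tokd v b b' (pt_rm_sub S O b h1) (pt_rm_sub S O b' h2)
      (tok_rm S O hC.pt3 b hT).2 (tok_rm S O hC.pt3 b' hT').2
  · intro v hv
    exact (deg_rm S O hd v).trans (hC.deg4 v (hRm v hv))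
  · intro v hv h4
    have h4' : 3 < S.deg v := lt_of_lt_of_le h4 (deg_rm S O hd v)
    have hle : S.deg v ≤ 4 := hC.deg4 v (hRm v hv)
    have he : (S.rm O).R.filter (fun w => (S.rm O).adj v w) =
        S.R.filter (fun w => S.adj v w) := by
      apply Finset.eq_of_subset_of_card_le (nb_sub S O hd v)
      have h5 : (S.R.filter (fun w => S.adj v w)).card ≤ 4 := hle
      have h6 : 3 < ((S.rm O).R.filter (fun w => (S.rm O).adj v w)).card := h4
      omega
    obtain ⟨b, hvb, hT, hD, hdeg⟩ := hC.deg3 v (hRm v hv) h4'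
    have hvO : v ∉ O := by
      have h1 : v ∈ S.R \ O := hv
      exact (Finset.mem_sdiff.1 h1).2
    have hno : ∀ u ∈ S.pt b, u ∉ O := by
      intro u hu
      by_cases huv : u = v
      · rw [huv]; exact hvO
      · have huR : u ∈ S.R := (Finset.mem_filter.1 hu).1
        have hadj : S.adj v u :=
          ⟨fun h => huv h.symm, b, hvb, hu, fun hh => hD v hvb hh.1.1⟩
        have hmem : u ∈ S.R.filter (fun w => S.adj v w) := Finset.mem_filter.2 ⟨huR, hadj⟩
        rw [← he] at hmem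
        have h1 : u ∈ S.R \ O := (Finset.mem_filter.1 hmem).1
        exact (Finset.mem_sdiff.1 h1).2
    obtain ⟨hpe, hT'⟩ := rm_tok S O b hT hno
    refine ⟨b, ?_, hT', ?_, ?_⟩
    · rw [hpe]; exact hvb
    · intro u hu
      rw [hpe] at hu
      exact hD u hu
    · intro u hu huv
      rw [hpe] at hu
      exact (deg_rm S O hd u).trans (hdeg u hu huv)
  · intro b hT u hu huD
    obtain ⟨hpe, hT'⟩ := tok_rm S O hC.pt3 b hT
    rw [hpe] at hu ⊢
    exact hC.drop2 b hT' u hu huD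
  · intro b hT hD y hy z hz hyz hg y' z' hy' hz' ha ha'
    obtain ⟨hpe, hT'⟩ := tok_rm S O hC.pt3 b hT
    rw [hpe] at hD hy hz hy' hz'
    obtain ⟨g, hgb, hyg, hzg⟩ := hg
    exact (deg_rm S O hd y').trans
      (hC.e1 b hT' hD y hy z hz hyz ⟨g, hgb, pt_rm_sub S O g hyg, pt_rm_sub S O g hzg⟩
        y' z' hy' hz' (adj_rm S O hd y y' ha) (adj_rm S O hd z z' ha'))
  · intro b hT hD y hy z hz hyz hg o ho ha ha' x hx hxy hxz
    obtain ⟨hpe, hT'⟩ := tok_rm S O hC.pt3 b hT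
    rw [hpe] at hD hy hz ho hx
    obtain ⟨g, hgb, hyg, hzg⟩ := hg
    have h := hC.e2 b hT' hD y hy z hz hyz
      ⟨g, hgb, pt_rm_sub S O g hyg, pt_rm_sub S O g hzg⟩ o ho
      (adj_rm S O hd y o ha) (adj_rm S O hd z o ha') x hx hxy hxz
    exact ⟨(deg_rm S O hd x).trans h.1, fun hh => h.2 (adj_rm S O hd x o hh)⟩

end Pool.Agent.Helper78.Inj
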