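import Pool.Agent.Helper65.Inj.JDefs
import Pool.Agent.Helper22.Inj.WSL

/-!
The step of the walk, short case (J part of MP_25cd9d_co).
-/

namespace Pool.Agent.Helper78.Inj

open Classical Pool.Agent.Helper65.Inj Pool.Agent.Helper65.Inj.Cub
open Pool.Agent.Helper22.Inj (rc_symm tok Same)

variable {A B : Type} {H : Cub A B}

/-- everything reachable from a member is a member -/
theorem rc_mem {J : Finset A} {a u : A} (ha : a ∈ J) (h : H.Rc J a u) : u ∈ J := by
  induction h with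
  | refl => exact ha
  | tail _ h2 _ =>
    obtain ⟨r, hr⟩ := h2
    exact hr.2.2.2.2.1

theorem Same.P' {J J' : Finset A} {a : A} (h : Same H J J' a) {r : B} (hP : H.P J' r a) :
    H.P J r a :=
  ⟨hP.1, (h r hP.1 a hP.1).2 hP.2.1, fun u hu hu' => hP.2.2 u hu ((h r hP.1 u hu).1 hu')⟩

/-- the state may be read with the two attached points exchanged -/
theorem ws_swap [Fintype A] [Fintype B] {J : Finset A} {n : ℕ} {w e1 e2 y : ℕ → A}
    {T D1 D2 : ℕ → B} {x : A} {b c : B} {j k : A}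
    (hW : H.WS J n w e1 e2 y T D1 D2 x b c j k) (hn : ¬ H.LP j k) :
    H.WS J n w e1 e2 y T D1 D2 x c b k j := by
  refine { hW with
    ytwo := ?_
    hx := hW.hx.symm
    lgo := ?_ }
  · intro i hi
    rcases hW.ytwo i hi with h | ⟨h1, h2, h3, h4, h5⟩
    · exact Or.inl h
    · exact Or.inr ⟨h1, h2, h3, h4, fun h => absurd (h5 h).1 hn⟩
  · rcases hW.lgo with h | h
    · exact absurd h hn
    · exact Or.inr h

theorem not_lp_symm {j k : A} (h : ¬ H.LP j k) : ¬ H.LP k j := fun h' => h fun r hr => h' r ⟨hr.2, hr.1⟩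

/-- one exit: either the walk goes on or there is a point of the new token which is attached to
the last pair -/
theorem exit [Fintype A] [Fintype B] (hWR : ST_WR) (hR1 : ST_Rot1) (hB : ST_B) (hFr : ST_Fr)
    (hE3 : ST_E3) (hOR : ST_OR) {J : Finset A} {n : ℕ} {w e1 e2 y : ℕ → A}
    {T D1 D2 : ℕ → B} {x : A} {b c : B} {j k : A}
    (hW : H.WS J n w e1 e2 y T D1 D2 x b c j k) (hBad : H.Bad J (T n)) (hn : ¬ H.LP j k)
    {D Fj : B} (hlf : Lf H J j b D Fj k)
    {G1 F1 G2 F2 : B} {p1 p2 : A} (hl1 : Lf H J (e1 n) (D1 n) G1 F1 p1)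
    (hl2 : Lf H J (e2 n) (D2 n) G2 F2 p2) :
    (∃ (J' : Finset A) (w' e1' e2' y' : ℕ → A) (T' D1' D2' : ℕ → B) (x' : A) (b' c' : B) (j' k' : A),
      H.WS J' (n + 1) w' e1' e2' y' T' D1' D2' x' b' c' j' k' ∧ H.Bad J' (T' (n + 1))) ∨
    (∃ v, v ∉ J ∧ v ∈ H.pt Fj ∧ v ≠ w n ∧ ((v ∈ H.pt (D1 n) ∧ v ∈ H.pt F2) ∨
      (v ∈ H.pt F1 ∧ v ∈ H.pt (D2 n)) ∨ (v ∈ H.pt F1 ∧ v ∈ H.pt F2))) := by
  have hO : H.Opt J := hW.hJ.1
  have hx := hW.hx
  obtain ⟨hO', hX'⟩ := hR1 A B H J x j k k (T n) b c D Fj hO hx hlf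
  set J' : Finset A := (J \ {j}) ∪ {x} with hJ'
  have hxJ : x ∉ J := hx.nJ
  have hjJ : j ∈ J := hx.hj.2.1
  have hkJ : k ∈ J := hx.hk.2.1
  have hjk : j ≠ k := hx.ne hO
  have hxj : x ≠ j := fun h => hxJ (h ▸ hjJ)
  have hxk : x ≠ k := fun h => hxJ (h ▸ hkJ)
  have hmem : ∀ u, u ∈ J' ↔ (u ∈ J ∧ u ≠ j) ∨ u = x := by
    intro u
    rw [hJ', Finset.mem_union, Finset.mem_sdiff, Finset.mem_singleton, Finset.mem_singleton]
  have hxJ' : x ∈ J' := (hmem x).2 (Or.inr rfl)
  have hjJ' : j ∉ J' := by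
    rw [hmem]
    push Not
    exact ⟨fun _ => rfl, hxj.symm⟩
  have hkJ' : k ∈ J' := (hmem k).2 (Or.inl ⟨hkJ, hjk.symm⟩)
  have hntj : H.nt J j := hx.nt1 hO
  have hfr := hFr A B H J x j j k (T n) b c hO hO' hjJ hx Relation.ReflTransGen.refl hntj
  obtain ⟨hF', hBad'⟩ := hB A B H J x j j k x k (T n) b c Fj b D hW.hJ hBad hO' hjJ hx hX'
  have hwr := hWR A B H J n w e1 e2 y T D1 D2 x b c j k hW
  -- components which are not touched
  have he1 : ∀ i ≤ n, e1 i ∈ J := fun i hi => (hW.hD1 i hi).2.1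
  have he2 : ∀ i ≤ n, e2 i ∈ J := fun i hi => (hW.hD2 i hi).2.1
  have hy : ∀ i < n, y i ∈ J := fun i hi => (hW.hT i hi).2.1
  have hr2 : ∀ i ≤ n, ¬ H.Rc J (e2 i) j := fun i hi h => hwr i hi ((hW.rc i hi).trans h)
  have hry : ∀ i < n, ¬ H.Rc J (y i) j := fun i hi h =>
    hwr (i + 1) hi ((rc_symm (hW.yrc i hi)).trans h)
  have s1 : ∀ i ≤ n, Same H J J' (e1 i) := fun i hi => (hfr (e1 i) (he1 i hi) (hwr i hi)).2.1
  have s2 : ∀ i ≤ n, Same H J J' (e2 i) := fun i hi => (hfr (e2 i) (he2 i hi) (hr2 i hi)).2.1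
  have sy : ∀ i < n, Same H J J' (y i) := fun i hi => (hfr (y i) (hy i hi) (hry i hi)).2.1
  have r1 : ∀ i ≤ n, ∀ u, H.Rc J (e1 i) u ↔ H.Rc J' (e1 i) u := fun i hi => (hfr (e1 i) (he1 i hi) (hwr i hi)).2.2
  have ry : ∀ i < n, ∀ u, H.Rc J (y i) u ↔ H.Rc J' (y i) u := fun i hi => (hfr (y i) (hy i hi) (hry i hi)).2.2
  have hnx : ∀ i ≤ n, ¬ H.Rc J (e1 i) x := fun i hi h => hxJ (rc_mem (he1 i hi) h)
  -- the new pair block of x
  have hQc : H.Q J' c x k := by
    refine ⟨hxk, hx.vc, hx.hk.1, hxJ', hkJ', fun r hr hr' => ?_⟩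
    rcases (hmem r).1 hr' with h | h
    · exact Or.inr (hx.hk.2.2 r hr h.1)
    · exact Or.inl h
  have hPT : H.P J' (T n) x := by
    refine ⟨hx.vT, hxJ', fun r hr hr' => ?_⟩
    rcases (hmem r).1 hr' with h | h
    · exact absurd h.1 (hx.hT r hr)
    · exact h
  have hRxk : H.Rc J' x k := Relation.ReflTransGen.single ⟨c, hQc⟩
  obtain ⟨D3, F3, p3, hl3⟩ := hX'.lf hO'
  obtain ⟨D4, F4, p4, hl4⟩ := hX'.symm.lf hO'
  have hLPn : H.LP (e1 n) (e2 n) := by
    rcases hW.lgo with h | h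
    · exact absurd h hn
    · exact h
  have hwJ' : ∀ i ≤ n, w i ∉ J' := by
    intro i h h1
    rcases (hmem _).1 h1 with h2 | h2
    · exact hW.wJ i h h2.1
    · by_cases hin : i = n
      · subst hin
        exact hW.xw h2.symm
      · have hlt : i < n := by omega
        have h3 : T n = T i ∨ T n = D1 i ∨ T n = D2 i :=
          bl_cases (hW.wT i h) (hW.wD1 i h) (hW.wD2 i h) (hW.TD1 i h) (hW.TD2 i h) (hW.D12 i h)
            (h2 ▸ hx.vT)
        rcases h3 with h3 | h3 | h3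
        · exact hx.hT.not_P (h3 ▸ hW.hT i hlt)
        · exact hx.hT.not_P (h3 ▸ hW.hD1 i h)
        · exact hx.hT.not_P (h3 ▸ hW.hD2 i h)
  -- the new point of the token
  have hnew : ∃ (x' : A) (b' c' : B) (j' k' : A), XD H J' x' Fj b' c' j' k' ∧ x' ≠ j ∧ H.Hv J' x' ∧
      H.LP j' k' := by
    obtain ⟨hUG, u, v, hu, hv, huv, hHu, hHv, hLg⟩ := hBad'
    obtain ⟨t, b', c', j', k', hXu, hlp⟩ := hLg
    have ht : Fj = t := tok hXu hu hUG
    subst ht
    refine ⟨u, b', c', j', k', hXu, ?_, hHu, hlp⟩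
    rintro rfl
    have hj2 : ∀ (r : B) (z : A), H.P J' r z → u ∈ H.pt r → r ≠ Fj → (r = b ∧ z = x) ∨ (r = D ∧ z = k) := by
      intro r z hP hur hrG
      rcases hX'.all hur with h | h | h
      · exact absurd h hrG
      · subst h
        exact Or.inl ⟨rfl, (hP.2.2 x hX'.hj.1 hX'.hj.2.1).symm⟩
      · subst h
        exact Or.inr ⟨rfl, (hP.2.2 k hX'.hk.1 hX'.hk.2.1).symm⟩
    rcases hj2 b' j' hXu.hj hXu.vb hXu.Tb.symm with ⟨h1, h2⟩ | ⟨h1, h2⟩ <;>
      rcases hj2 c' k' hXu.hk hXu.vc hXu.Tc.symm with ⟨h3, h4⟩ | ⟨h3, h4⟩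
    · exact absurd (h1.trans h3.symm) hXu.bc
    · subst h2 h4
      exact hlp c ⟨hx.vc, hx.hk.1⟩
    · subst h2 h4
      exact hlp c ⟨hx.hk.1, hx.vc⟩
    · exact absurd (h1.trans h3.symm) hXu.bc
  obtain ⟨x', b', c', j', k', hXx, hxp', hHx, hlgo⟩ := hnew
  by_cases hRc : H.Rc J' (e1 n) j'
  · -- the exit fails
    right
    have hlfe1 : H.IsLf J' (e1 n) := (s1 n le_rfl).lf (hW.lf1 n le_rfl)
    have hlfe2 : H.IsLf J' (e2 n) := (s2 n le_rfl).lf (hW.lf2 n le_rfl)
    have hR12 : H.Rc J' (e1 n) (e2 n) := (r1 n le_rfl _).1 (hW.rc n le_rfl)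
    have he12 : e1 n ≠ e2 n := hW.ne n le_rfl
    have key : ∀ z, H.IsLf J' z → H.Rc J' (e1 n) z → z = e1 n ∨ z = e2 n := by
      intro z hz hz'
      by_cases h : z = e1 n
      · exact Or.inl h
      · exact Or.inr (hE3 A B H J' (e1 n) (e2 n) z hO' hlfe1 hlfe2 hz hR12 hz' he12 (fun h' => h h'.symm)).symm
    obtain ⟨D5, F5, p5, hl5⟩ := hXx.lf hO'
    obtain ⟨D6, F6, p6, hl6⟩ := hXx.symm.lf hO'
    have hRjk' : H.Rc J' j' k' := hOR A B H J' j' k' hO' hXx.hj.2.1 fun s hs => hXx.opp hO' hs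
    have hj' := key j' ⟨_, _, _, _, hl5⟩ hRc
    have hk' := key k' ⟨_, _, _, _, hl6⟩ (hRc.trans hRjk')
    have hjk' : j' ≠ k' := hXx.ne hO'
    have hβ : ∃ β1 β2, x' ∈ H.pt β1 ∧ x' ∈ H.pt β2 ∧ H.P J' β1 (e1 n) ∧ H.P J' β2 (e2 n) := by
      rcases hj' with h1 | h1 <;> rcases hk' with h2 | h2
      · exact absurd (h1.trans h2.symm) hjk'
      · exact ⟨b', c', hXx.vb, hXx.vc, h1 ▸ hXx.hj, h2 ▸ hXx.hk⟩
      · exact ⟨c', b', hXx.vc, hXx.vb, h2 ▸ hXx.hk, h1 ▸ hXx.hj⟩
      · exact absurd (h1.trans h2.symm) hjk'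
    obtain ⟨β1, β2, hx1, hx2, hP1, hP2⟩ := hβ
    have hP1' : H.P J β1 (e1 n) := Same.P' (s1 n le_rfl) hP1
    have hP2' : H.P J β2 (e2 n) := Same.P' (s2 n le_rfl) hP2
    have hb1 : β1 = D1 n ∨ β1 = F1 := by
      rcases hl1.all hP1'.1 with h | h | h
      · exact Or.inl h
      · subst h
        exact absurd (hP1'.2.2 p1 hl1.hD.2.2.1 hl1.hD.2.2.2.2.1).symm hl1.hD.1
      · exact Or.inr h
    have hb2 : β2 = D2 n ∨ β2 = F2 := by
      rcases hl2.all hP2'.1 with h | h | h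
      · exact Or.inl h
      · subst h
        exact absurd (hP2'.2.2 p2 hl2.hD.2.2.1 hl2.hD.2.2.2.2.1).symm hl2.hD.1
      · exact Or.inr h
    have hxw : x' ≠ w n := by
      intro h
      have h3 : Fj = T n ∨ Fj = D1 n ∨ Fj = D2 n :=
        bl_cases (hW.wT n le_rfl) (hW.wD1 n le_rfl) (hW.wD2 n le_rfl) (hW.TD1 n le_rfl)
          (hW.TD2 n le_rfl) (hW.D12 n le_rfl) (h ▸ hXx.vT)
      rcases h3 with h3 | h3 | h3
      · exact hx.hT j (h3 ▸ hlf.hF.1) hjJ
      · have h4 := hW.hD1 n le_rfl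
        rw [← h3] at h4
        have h5 : j = e1 n := h4.2.2 j hlf.hF.1 hjJ
        exact hwr n le_rfl (h5 ▸ Relation.ReflTransGen.refl)
      · have h4 := hW.hD2 n le_rfl
        rw [← h3] at h4
        have h5 : j = e2 n := h4.2.2 j hlf.hF.1 hjJ
        exact hr2 n le_rfl (h5 ▸ Relation.ReflTransGen.refl)
    refine ⟨x', fun h => hXx.nJ ((hmem x').2 (Or.inl ⟨h, hxp'⟩)), hXx.vT, hxw, ?_⟩
    rcases hb1 with rfl | rfl <;> rcases hb2 with rfl | rfl
    · exfalso
      exact hW.D12 n le_rfl (hHx.2 (w n) (hwJ' n le_rfl) hxw.symm (D1 n) (D2 n) hx1 hx2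
        (hW.wD1 n le_rfl) (hW.wD2 n le_rfl))
    · exact Or.inl ⟨hx1, hx2⟩
    · exact Or.inr (Or.inl ⟨hx1, hx2⟩)
    · exact Or.inr (Or.inr ⟨hx1, hx2⟩)
  · left
    -- the new functions
    set w' : ℕ → A := Function.update w (n + 1) j with hw'
    set e1' : ℕ → A := Function.update e1 (n + 1) x with he1'
    set e2' : ℕ → A := Function.update e2 (n + 1) k with he2'
    set y' : ℕ → A := Function.update y n x with hy'
    set T' : ℕ → B := Function.update T (n + 1) Fj with hT'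
    set D1' : ℕ → B := Function.update D1 (n + 1) b with hD1'
    set D2' : ℕ → B := Function.update D2 (n + 1) D with hD2'
    have uw : ∀ i ≤ n, w' i = w i := fun i hi => Function.update_of_ne (by omega) _ _
    have ue1 : ∀ i ≤ n, e1' i = e1 i := fun i hi => Function.update_of_ne (by omega) _ _
    have ue2 : ∀ i ≤ n, e2' i = e2 i := fun i hi => Function.update_of_ne (by omega) _ _
    have uy : ∀ i < n, y' i = y i := fun i hi => Function.update_of_ne (by omega) _ _
    have uT : ∀ i ≤ n, T' i = T i := fun i hi => Function.update_of_ne (by omega) _ _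
    have uD1 : ∀ i ≤ n, D1' i = D1 i := fun i hi => Function.update_of_ne (by omega) _ _
    have uD2 : ∀ i ≤ n, D2' i = D2 i := fun i hi => Function.update_of_ne (by omega) _ _
    have vw : w' (n + 1) = j := Function.update_self _ _ _
    have ve1 : e1' (n + 1) = x := Function.update_self _ _ _
    have ve2 : e2' (n + 1) = k := Function.update_self _ _ _
    have vy : y' n = x := Function.update_self _ _ _
    have vT : T' (n + 1) = Fj := Function.update_self _ _ _
    have vD1 : D1' (n + 1) = b := Function.update_self _ _ _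
    have vD2 : D2' (n + 1) = D := Function.update_self _ _ _
    have le_cases : ∀ i ≤ n + 1, i ≤ n ∨ i = n + 1 := fun i hi => by omega
    have lt_cases : ∀ i < n + 1, i < n ∨ i = n := fun i hi => by omega
    refine ⟨J', w', e1', e2', y', T', D1', D2', x', b', c', j', k', ?_, ?_⟩
    · refine
        { hJ := hF'
          wT := ?_
          wD1 := ?_
          wD2 := ?_
          TD1 := ?_
          TD2 := ?_
          D12 := ?_
          wJ := ?_
          hD1 := ?_
          hD2 := ?_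
          lf1 := ?_
          lf2 := ?_
          ne := ?_
          rc := ?_
          hTn := ?_
          hT := ?_
          dis := ?_
          yrc := ?_
          ytwo := ?_
          hx := ?_
          xw := ?_
          hv := hHx
          lgo := ?_
          TD := ?_ }
      · intro i hi
        rcases le_cases i hi with h | rfl
        · rw [uw i h, uT i h]; exact hW.wT i h
        · rw [vw, vT]; exact hX'.vT
      · intro i hi
        rcases le_cases i hi with h | rfl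
        · rw [uw i h, uD1 i h]; exact hW.wD1 i h
        · rw [vw, vD1]; exact hX'.vb
      · intro i hi
        rcases le_cases i hi with h | rfl
        · rw [uw i h, uD2 i h]; exact hW.wD2 i h
        · rw [vw, vD2]; exact hX'.vc
      · intro i hi
        rcases le_cases i hi with h | rfl
        · rw [uT i h, uD1 i h]; exact hW.TD1 i h
        · rw [vT, vD1]; exact hX'.Tb
      · intro i hi
        rcases le_cases i hi with h | rfl
        · rw [uT i h, uD2 i h]; exact hW.TD2 i h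
        · rw [vT, vD2]; exact hX'.Tc
      · intro i hi
        rcases le_cases i hi with h | rfl
        · rw [uD1 i h, uD2 i h]; exact hW.D12 i h
        · rw [vD1, vD2]; exact hX'.bc
      · intro i hi
        rcases le_cases i hi with h | rfl
        · rw [uw i h]; exact hwJ' i h
        · rw [vw]; exact hjJ'
      · intro i hi
        rcases le_cases i hi with h | rfl
        · rw [uD1 i h, ue1 i h]; exact (s1 i h).P (hW.hD1 i h)
        · rw [vD1, ve1]; exact hX'.hj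
      · intro i hi
        rcases le_cases i hi with h | rfl
        · rw [uD2 i h, ue2 i h]; exact (s2 i h).P (hW.hD2 i h)
        · rw [vD2, ve2]; exact hX'.hk
      · intro i hi
        rcases le_cases i hi with h | rfl
        · rw [ue1 i h]; exact (s1 i h).lf (hW.lf1 i h)
        · rw [ve1]; exact ⟨_, _, _, _, hl3⟩
      · intro i hi
        rcases le_cases i hi with h | rfl
        · rw [ue2 i h]; exact (s2 i h).lf (hW.lf2 i h)
        · rw [ve2]; exact ⟨_, _, _, _, hl4⟩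
      · intro i hi
        rcases le_cases i hi with h | rfl
        · rw [ue1 i h, ue2 i h]; exact hW.ne i h
        · rw [ve1, ve2]; exact hxk
      · intro i hi
        rcases le_cases i hi with h | rfl
        · rw [ue1 i h, ue2 i h]; exact (r1 i h _).1 (hW.rc i h)
        · rw [ve1, ve2]; exact hRxk
      · rw [vT]; exact hX'.hT
      · intro i hi
        rcases lt_cases i hi with h | rfl
        · rw [uT i h.le, uy i h]; exact (sy i h).P (hW.hT i h)
        · rw [uT i le_rfl, vy]; exact hPT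
      · intro i hi i' hi' hne
        rcases le_cases i hi with h | rfl
        · rcases le_cases i' hi' with h' | rfl
          · rw [ue1 i h, ue1 i' h', ← r1 i h]; exact hW.dis i h i' h' hne
          · rw [ue1 i h, ve1, ← r1 i h]; exact hnx i h
        · rcases le_cases i' hi' with h' | rfl
          · rw [ve1, ue1 i' h']
            intro h1
            exact hnx i' h' ((r1 i' h' _).2 (rc_symm h1))
          · exact absurd rfl hne
      · intro i hi
        rcases lt_cases i hi with h | rfl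
        · rw [uy i h, ue1 (i + 1) h]; exact (ry i h _).1 (hW.yrc i h)
        · rw [vy, ve1]; exact Relation.ReflTransGen.refl
      · intro i hi
        rcases lt_cases i hi with h | rfl
        · rcases hW.ytwo i h with h1 | ⟨h1, h2, ⟨D0, h3⟩, h4, h5⟩
          · left
            rw [uy i h]
            exact (sy i h).two h1
          · right
            have hin : i + 1 < n := by
              rcases Nat.lt_or_ge (i + 1) n with h6 | h6
              · exact h6
              · exact absurd (h5 (by omega)).1 hn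
            refine ⟨?_, ?_, ⟨D0, ?_⟩, ?_, ?_⟩
            · rw [ue1 i h.le, ue2 i h.le]; exact h1
            · rw [uy i h, ue1 (i + 1) h]; exact h2
            · rw [ue1 (i + 1) h, ue2 (i + 1) h]; exact (s1 (i + 1) h).Q h3
            · intro _
              rw [uy (i + 1) hin]
              exact (sy (i + 1) hin).two (h4 hin)
            · intro h6
              omega
        · right
          refine ⟨?_, ?_, ⟨c, ?_⟩, ?_, ?_⟩
          · rw [ue1 i le_rfl, ue2 i le_rfl]; exact hLPn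
          · rw [vy, ve1]
          · rw [ve1, ve2]; exact hQc
          · intro h6
            omega
          · intro _
            refine ⟨hlgo, ?_⟩
            rw [ue1 i le_rfl]
            exact hRc
      · rw [vT]; exact hXx
      · rw [vw]; exact hxp'
      · exact Or.inl hlgo
      · intro i hi
        rcases lt_cases i hi with h | rfl
        · rw [uT i h.le, uD1 (i + 1) h]; exact hW.TD i h
        · rw [uT i le_rfl, vD1]
          exact hx.Tb
    · rw [vT]; exact hBad'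

/-- the step of the walk, short case -/
theorem st_WSS (hWR : ST_WR) (hR1 : ST_Rot1) (hB : ST_B) (hFr : ST_Fr) (hE3 : ST_E3)
    (hOR : ST_OR) (hW6 : ST_W6) (hW7 : ST_W7) : ST_WSS := by
  intro A B _ _ H J n w e1 e2 y T D1 D2 x b c j k hW hBad hn
  have hO : H.Opt J := hW.hJ.1
  have hx := hW.hx
  have hjk : j ≠ k := hx.ne hO
  have hjJ : j ∈ J := hx.hj.2.1
  have hkJ : k ∈ J := hx.hk.2.1
  have hLPn : H.LP (e1 n) (e2 n) := by
    rcases hW.lgo with h | h
    · exact absurd h hn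
    · exact h
  have hXw : XD H J (w n) (T n) (D1 n) (D2 n) (e1 n) (e2 n) :=
    ⟨hW.wT n le_rfl, hW.wD1 n le_rfl, hW.wD2 n le_rfl, hW.D12 n le_rfl, hW.hTn,
      hW.hD1 n le_rfl, hW.hD2 n le_rfl⟩
  obtain ⟨G1, F1, p1, hl1⟩ := hXw.lf hO
  obtain ⟨G2, F2, p2, hl2⟩ := hXw.symm.lf hO
  -- the two ends j and k with their common block
  obtain ⟨D, Fj, p, hlj⟩ := hx.lf hO
  obtain ⟨E, Fk, p', hlk⟩ := hx.symm.lf hO
  have hcom : ∃ r, j ∈ H.pt r ∧ k ∈ H.pt r := by
    by_contra h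
    exact hn fun r hr => h ⟨r, hr⟩
  obtain ⟨r, hjr, hkr⟩ := hcom
  have hrD : r = D := by
    rcases hlj.all hjr with h | h | h
    · subst h
      exact absurd (hlj.hb.2.2 k hkr hkJ).symm hjk
    · exact h
    · subst h
      exact absurd (hlj.hF.2.2 k hkr hkJ).symm hjk
  have hrE : r = E := by
    rcases hlk.all hkr with h | h | h
    · subst h
      exact absurd (hlk.hb.2.2 j hjr hjJ) hjk
    · exact h
    · subst h
      exact absurd (hlk.hF.2.2 j hjr hjJ) hjk
  subst hrD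
  subst hrE
  have hpk : p = k := by
    rcases hlj.hD.2.2.2.2.2 k hkr hkJ with h | h
    · exact absurd h.symm hjk
    · exact h.symm
  have hpj : p' = j := by
    rcases hlk.hD.2.2.2.2.2 j hjr hjJ with h | h
    · exact absurd h hjk
    · exact h.symm
  subst hpk
  subst hpj
  have hwr := hWR A B H J n w e1 e2 y T D1 D2 x b c p' p hW
  have hje1 : p' ≠ e1 n := fun h => hwr n le_rfl (h ▸ Relation.ReflTransGen.refl)
  have hje2 : p' ≠ e2 n := fun h => hwr n le_rfl (h ▸ hW.rc n le_rfl)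
  have hwr' := hWR A B H J n w e1 e2 y T D1 D2 x c b p p' (ws_swap hW hn)
  have hke1 : p ≠ e1 n := fun h => hwr' n le_rfl (h ▸ Relation.ReflTransGen.refl)
  have hke2 : p ≠ e2 n := fun h => hwr' n le_rfl (h ▸ hW.rc n le_rfl)
  rcases exit hWR hR1 hB hFr hE3 hOR hW hBad hn hlj hl1 hl2 with h | ⟨v, hvJ, hvF, hvw, hv⟩
  · exact h
  rcases exit hWR hR1 hB hFr hE3 hOR (ws_swap hW hn) hBad (not_lp_symm hn) hlk hl1 hl2 with
    h | ⟨v', hvJ', hvF', hvw', hv'⟩
  · exact h
  exfalso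
  have w7 : ∀ (z q : A) (F : B), z ∉ J → z ∈ H.pt F1 → z ∈ H.pt F2 → z ∈ H.pt F → H.P J F q →
      H.nt J q → q ≠ e1 n → q ≠ e2 n → False := fun z q F h1 h2 h3 h4 h5 h6 h7 h8 =>
    hW7 A B H J (w n) z q (e1 n) (e2 n) p1 p2 (T n) (D1 n) (D2 n) G1 G2 F1 F2 F hO hXw hl1 hl2
      hLPn h1 h2 h3 h4 h5 h6 h7 h8
  -- F blocks are different
  have hFF : Fj ≠ Fk := fun h => hjk ((hlk.hF.2.2 p' (h ▸ hlj.hF.1) hjJ))
  have he1J : e1 n ∈ J := (hW.hD1 n le_rfl).2.1
  have he2J : e2 n ∈ J := (hW.hD2 n le_rfl).2.1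
  have priv : ∀ {F G : B} {a a' : A}, H.P J F a → H.P J G a' → a ≠ a' → F ≠ G := by
    intro F G a a' h1 h2 h3 h4
    exact h3 (h2.2.2 a (h4 ▸ h1.1) h1.2.1)
  have four : ∀ (z : A) (X Y : B), z ∈ H.pt Fj → z ∈ H.pt Fk → z ∈ H.pt X → z ∈ H.pt Y →
      H.P J X (e1 n) → H.P J Y (e2 n) → False := by
    intro z X Y h1 h2 h3 h4 h5 h6
    have a1 : Fj ≠ X := priv hlj.hF h5 hje1
    have a2 : Fk ≠ X := priv hlk.hF h5 hke1
    have a3 : Fj ≠ Y := priv hlj.hF h6 hje2
    have a4 : Fk ≠ Y := priv hlk.hF h6 hke2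
    have a5 : X ≠ Y := priv h5 h6 (hW.ne n le_rfl)
    rcases bl_cases h1 h2 h3 hFF a1 a2 h4 with h | h | h
    · exact a3 h.symm
    · exact a4 h.symm
    · exact a5 h.symm
  rcases hv with ⟨g1, g2⟩ | ⟨g1, g2⟩ | ⟨g1, g2⟩
  · rcases hv' with ⟨g3, g4⟩ | ⟨g3, g4⟩ | ⟨g3, g4⟩
    · have hvv : v = v' := by
        have h1 : e1 n ≠ w n := fun h => hW.wJ n le_rfl (h ▸ he1J)
        have h2 : e1 n ≠ v := fun h => hvJ (h ▸ he1J)
        rcases pt_cases (hW.hD1 n le_rfl).1 (hW.wD1 n le_rfl) g1 h1 h2 hvw.symm g3 with h | h | h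
        · exact absurd (h ▸ he1J) hvJ'
        · exact absurd h hvw'
        · exact h.symm
      subst hvv
      exact four v (D1 n) F2 hvF hvF' g1 g2 (hW.hD1 n le_rfl) hl2.hF
    · exact hW6 A B H J (w n) x v v' p' p (e1 n) (e2 n) p1 p2 (T n) b c r Fj Fk (D1 n) (D2 n)
        G1 G2 F1 F2 hO hXw hx hW.xw hlj hlk hl1 hl2 hLPn hje1 hje2 hke1 hke2 hvJ hvJ' hvF hvF'
        g1 g2 g3 g4
    · exact w7 v' p Fk hvJ' g3 g4 hvF' hlk.hF (hx.nt2 hO) hke1 hke2
  · rcases hv' with ⟨g3, g4⟩ | ⟨g3, g4⟩ | ⟨g3, g4⟩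
    · exact hW6 A B H J (w n) x v v' p' p (e2 n) (e1 n) p2 p1 (T n) b c r Fj Fk (D2 n) (D1 n)
        G2 G1 F2 F1 hO hXw.symm hx hW.xw hlj hlk hl2 hl1 (fun q hq => hLPn q ⟨hq.2, hq.1⟩)
        hje2 hje1 hke2 hke1 hvJ hvJ' hvF hvF' g2 g1 g4 g3
    · have hvv : v = v' := by
        have h1 : e2 n ≠ w n := fun h => hW.wJ n le_rfl (h ▸ he2J)
        have h2 : e2 n ≠ v := fun h => hvJ (h ▸ he2J)
        rcases pt_cases (hW.hD2 n le_rfl).1 (hW.wD2 n le_rfl) g2 h1 h2 hvw.symm g4 with h | h | h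
        · exact absurd (h ▸ he2J) hvJ'
        · exact absurd h hvw'
        · exact h.symm
      subst hvv
      exact four v F1 (D2 n) hvF hvF' g1 g2 hl1.hF (hW.hD2 n le_rfl)
    · exact w7 v' p Fk hvJ' g3 g4 hvF' hlk.hF (hx.nt2 hO) hke1 hke2
  · exact w7 v p' Fj hvJ g1 g2 hvF hlj.hF (hx.nt1 hO) hje1 hje2

end Pool.Agent.Helper78.Inj
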